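import Mathlib

set_option autoImplicit false

namespace Pool.Agent.Lib.MP_389e9c_co

section Code

variable {F : Type*} [Field F] {S : Type*} [AddCommGroup S] [Module F S] {n m : ℕ}

/-- The linear map whose range is the code attached to a linear family of maps `S × S → S`. -/
noncomputable def codeMap (e : S ≃ₗ[F] (Fin m → F))
    (φ : (Fin n → F) →ₗ[F] ((S × S) →ₗ[F] S)) : (S × S) →ₗ[F] (Fin n → Fin m → F) :=
  LinearMap.pi (fun i => e.toLinearMap ∘ₗ φ (Pi.single i 1))

lemma codeMap_apply (e : S ≃ₗ[F] (Fin m → F)) (φ : (Fin n → F) →ₗ[F] ((S × S) →ₗ[F] S))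
    (p : S × S) (i : Fin n) (j : Fin m) :
    codeMap e φ p i j = e (φ (Pi.single i 1) p) j := rfl

lemma codeMap_comb (e : S ≃ₗ[F] (Fin m → F)) (φ : (Fin n → F) →ₗ[F] ((S × S) →ₗ[F] S))
    (v : Fin n → F) (p : S × S) (j : Fin m) :
    ∑ i, v i * codeMap e φ p i j = e (φ v p) j := by
  have hv : v = ∑ i, v i • (Pi.single i 1 : Fin n → F) := by
    ext k
    simp [Finset.sum_apply, Pi.single_apply]
  have h1 : φ v = ∑ i, v i • φ (Pi.single i 1) := by
    conv_lhs => rw [hv]
    simp [map_sum]
  rw [h1]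
  simp only [codeMap_apply, LinearMap.sum_apply, LinearMap.smul_apply, map_sum, map_smul,
    Finset.sum_apply, Pi.smul_apply, smul_eq_mul]

lemma mem_cols (W : Submodule F (Fin n → F)) (M : Fin n → Fin m → F) :
    M ∈ (⨅ j : Fin m, Submodule.comap
            (LinearMap.pi (fun i : Fin n =>
              LinearMap.comp (LinearMap.proj j : (Fin m → F) →ₗ[F] F)
                (LinearMap.proj i : (Fin n → Fin m → F) →ₗ[F] (Fin m → F)))) W)
      ↔ ∀ j, (fun i => M i j) ∈ W := by
  simp only [Submodule.mem_iInf, Submodule.mem_comap]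
  rfl

lemma mem_perp (V : Submodule F (Fin n → F)) (w : Fin n → F) :
    w ∈ (⨅ (v : Fin n → F) (_ : v ∈ V), LinearMap.ker
                (∑ i : Fin n, v i • (LinearMap.proj i : (Fin n → F) →ₗ[F] F)))
      ↔ ∀ v ∈ V, ∑ i, v i * w i = 0 := by
  simp only [Submodule.mem_iInf, LinearMap.mem_ker, LinearMap.sum_apply, LinearMap.smul_apply,
    LinearMap.proj_apply, smul_eq_mul]

lemma exists_perp (W : Submodule F (Fin n → F)) :
    ∃ V : Submodule F (Fin n → F), W = (⨅ (v : Fin n → F) (_ : v ∈ V), LinearMap.ker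
                (∑ i : Fin n, v i • (LinearMap.proj i : (Fin n → F) →ₗ[F] F))) := by
  refine ⟨⨅ (v : Fin n → F) (_ : v ∈ W), LinearMap.ker
                (∑ i : Fin n, v i • (LinearMap.proj i : (Fin n → F) →ₗ[F] F)), ?_⟩
  ext w
  rw [mem_perp]
  constructor
  · intro hw v hv
    rw [mem_perp] at hv
    have := hv w hw
    rw [← this]
    exact Finset.sum_congr rfl (fun i _ => mul_comm _ _)
  · intro h
    by_contra hw
    obtain ⟨f, hf1, hf2⟩ := Submodule.exists_dual_map_eq_bot_of_notMem hw inferInstance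
    have hrep : ∀ x : Fin n → F, f x = ∑ i, f (Pi.single i 1) * x i := by
      intro x
      have hx : x = ∑ i, x i • (Pi.single i 1 : Fin n → F) := by
        ext k
        simp [Finset.sum_apply, Pi.single_apply]
      conv_lhs => rw [hx]
      simp only [map_sum, map_smul, smul_eq_mul]
      exact Finset.sum_congr rfl (fun i _ => mul_comm _ _)
    apply hf1
    rw [hrep]
    apply h (fun i => f (Pi.single i 1))
    rw [mem_perp]
    intro v hv
    have : f v = 0 := by
      have : f v ∈ Submodule.map f W := Submodule.mem_map_of_mem hv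
      rw [hf2] at this
      simpa using this
    rw [hrep] at this
    rw [← this]
    exact Finset.sum_congr rfl (fun i _ => mul_comm _ _)

lemma code_inf (e : S ≃ₗ[F] (Fin m → F)) (φ : (Fin n → F) →ₗ[F] ((S × S) →ₗ[F] S))
    (V : Submodule F (Fin n → F)) :
    LinearMap.range (codeMap e φ) ⊓ (⨅ j : Fin m, Submodule.comap
            (LinearMap.pi (fun i : Fin n =>
              LinearMap.comp (LinearMap.proj j : (Fin m → F) →ₗ[F] F)
                (LinearMap.proj i : (Fin n → Fin m → F) →ₗ[F] (Fin m → F))))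
                (⨅ (v : Fin n → F) (_ : v ∈ V), LinearMap.ker
                (∑ i : Fin n, v i • (LinearMap.proj i : (Fin n → F) →ₗ[F] F))))
      = Submodule.map (codeMap e φ) (⨅ (v : Fin n → F) (_ : v ∈ V), LinearMap.ker (φ v)) := by
  ext M
  rw [Submodule.mem_inf, mem_cols, Submodule.mem_map]
  constructor
  · rintro ⟨⟨p, rfl⟩, hp⟩
    refine ⟨p, ?_, rfl⟩
    simp only [Submodule.mem_iInf, LinearMap.mem_ker]
    intro v hv
    apply e.injective
    rw [map_zero]
    ext j
    rw [← codeMap_comb]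
    have := hp j
    rw [mem_perp] at this
    exact this v hv
  · rintro ⟨p, hp, rfl⟩
    refine ⟨⟨p, rfl⟩, ?_⟩
    simp only [Submodule.mem_iInf, LinearMap.mem_ker] at hp
    intro j
    rw [mem_perp]
    intro v hv
    rw [codeMap_comb, hp v hv, map_zero]
    rfl

/-- The dichotomy hypothesis: every nonzero `φ u` is onto (kernel of dimension `m`) and the kernels
of two members of the family are nested or meet trivially. -/
structure Dich (φ : (Fin n → F) →ₗ[F] ((S × S) →ₗ[F] S)) (m : ℕ) : Prop where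
  ker_dim : ∀ u, u ≠ 0 → Module.finrank F (LinearMap.ker (φ u)) = m
  dich : ∀ u v, u ≠ 0 → LinearMap.ker (φ u) ≤ LinearMap.ker (φ v) ∨
    LinearMap.ker (φ u) ⊓ LinearMap.ker (φ v) = ⊥

lemma Dich.finrank_iInf [FiniteDimensional F S] {φ : (Fin n → F) →ₗ[F] ((S × S) →ₗ[F] S)}
    (hS : Module.finrank F S = m)
    (h : Dich φ m) (V : Submodule F (Fin n → F)) :
    m ∣ Module.finrank F ↥(⨅ (v : Fin n → F) (_ : v ∈ V), LinearMap.ker (φ v)) := by
  by_cases hV : ∃ u ∈ V, u ≠ 0
  · obtain ⟨u, huV, hu⟩ := hV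
    by_cases hall : ∀ v ∈ V, LinearMap.ker (φ u) ≤ LinearMap.ker (φ v)
    · have : (⨅ (v : Fin n → F) (_ : v ∈ V), LinearMap.ker (φ v)) = LinearMap.ker (φ u) := by
        apply le_antisymm
        · exact iInf₂_le u huV
        · exact le_iInf₂ hall
      rw [this, h.ker_dim u hu]
    · push Not at hall
      obtain ⟨v, hv, hvn⟩ := hall
      have hb := (h.dich u v hu).resolve_left hvn
      have : (⨅ (v : Fin n → F) (_ : v ∈ V), LinearMap.ker (φ v)) = ⊥ := by
        rw [eq_bot_iff, ← hb]
        exact le_inf (iInf₂_le u huV) (iInf₂_le v hv)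
      rw [this, finrank_bot]
      exact dvd_zero m
  · push Not at hV
    have : (⨅ (v : Fin n → F) (_ : v ∈ V), LinearMap.ker (φ v)) = ⊤ := by
      rw [eq_top_iff]
      refine le_iInf₂ (fun v hv => ?_)
      rw [hV v hv, map_zero, LinearMap.ker_zero]
    rw [this, finrank_top, Module.finrank_prod, hS]
    exact ⟨2, by ring⟩

end Code

end Pool.Agent.Lib.MP_389e9c_co
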