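import Pool.Agent.Lib.MP_389e9c_co.Quat

set_option autoImplicit false

namespace Pool.Agent.Lib.MP_389e9c_co

section Main

variable {F : Type*} [Field F] {L : Type*} [Field L] [Algebra F L]

lemma exists_code_aux {S : Type*} [AddCommGroup S] [Module F S] [FiniteDimensional F S]
    {A : Type*} [Ring A] [Algebra F A] [Module A S] [IsScalarTower F A S] {m : ℕ} (hm : 0 < m)
    (hS : Module.finrank F S = m) (w z : A) (hzw : z * w = z - w * z)
    (hd : Dich (phi S (alphaMap (F := F) w z) (betaMap w z)) m) :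
    ∃ C : Submodule F (Fin 7 → Fin m → F),
        (∀ W : Submodule F (Fin 7 → F),
          m ∣ Module.finrank F ↥(C ⊓ ⨅ j : Fin m, Submodule.comap
            (LinearMap.pi (fun i : Fin 7 =>
              LinearMap.comp (LinearMap.proj j : (Fin m → F) →ₗ[F] F)
                (LinearMap.proj i : (Fin 7 → Fin m → F) →ₗ[F] (Fin m → F)))) W)) ∧
        ∀ (K : Type) [Field K] [Algebra F K], ¬ ∃ (k : ℕ) (G : Matrix (Fin k) (Fin 7) K),
          ∀ V : Submodule F (Fin 7 → F),
            m * Module.finrank K (Submodule.span K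
              ((fun v : Fin 7 → F => Matrix.mulVec G (fun i => algebraMap F K (v i))) ''
                (V : Set (Fin 7 → F))))
            = Module.finrank F C - Module.finrank F ↥(C ⊓ ⨅ j : Fin m, Submodule.comap
              (LinearMap.pi (fun i : Fin 7 =>
                LinearMap.comp (LinearMap.proj j : (Fin m → F) →ₗ[F] F)
                  (LinearMap.proj i : (Fin 7 → Fin m → F) →ₗ[F] (Fin m → F))))
              (⨅ (v : Fin 7 → F) (_ : v ∈ V), LinearMap.ker
                (∑ i : Fin 7, v i • (LinearMap.proj i : (Fin 7 → F) →ₗ[F] F)))) := by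
  have e : S ≃ₗ[F] (Fin m → F) := LinearEquiv.ofFinrankEq _ _ (by rw [hS, Module.finrank_fin_fun])
  set φ := phi S (alphaMap (F := F) w z) (betaMap w z) with hφ
  have hinj : Function.Injective (codeMap e φ) := by
    rw [← LinearMap.ker_eq_bot, eq_bot_iff]
    rintro ⟨s, t⟩ hst
    rw [LinearMap.mem_ker] at hst
    have h0 : φ (Pi.single 0 1) (s, t) = 0 := by
      apply e.injective
      rw [map_zero]
      ext j
      rw [← codeMap_apply, hst]
      rfl
    have h3 : φ (Pi.single 3 1) (s, t) = 0 := by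
      apply e.injective
      rw [map_zero]
      ext j
      rw [← codeMap_apply, hst]
      rfl
    rw [hφ, phi_apply, alphaMap_apply, betaMap_apply] at h0 h3
    simp at h0 h3
    simp [h0, h3]
  refine ⟨LinearMap.range (codeMap e φ), ?_, ?_⟩
  · intro W
    obtain ⟨V, hV⟩ := exists_perp W
    rw [hV, code_inf, ← LinearEquiv.finrank_eq (Submodule.equivMapOfInjective _ hinj _)]
    exact hd.finrank_iInf hS V
  · intro K _ _
    rintro ⟨k, G, hG⟩
    apply no_rep hm w z hzw hd (gmap G)
    intro V
    have h1 := hG V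
    rw [code_inf, ← LinearEquiv.finrank_eq (Submodule.equivMapOfInjective _ hinj _),
      LinearMap.finrank_range_of_inj hinj, Module.finrank_prod, hS] at h1
    rw [two_mul]
    exact h1

theorem exists_code [FiniteDimensional F L] {m : ℕ} (hm : Module.finrank F (Fin 2 → L) = m)
    {ε : F} {γ : L}
    (hε : ∀ x y : F, x ^ 2 + x * y - ε * y ^ 2 = 0 → x = 0 ∧ y = 0)
    (hγ : ∀ c0 c1 c2 c3 : F, algebraMap F L c0 + γ ^ 2 * algebraMap F L c1 +
      γ ^ 4 * algebraMap F L c2 + γ ^ 6 * algebraMap F L c3 = 0 →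
      c0 = 0 ∧ c1 = 0 ∧ c2 = 0 ∧ c3 = 0) :
    ∃ C : Submodule F (Fin 7 → Fin m → F),
        (∀ W : Submodule F (Fin 7 → F),
          m ∣ Module.finrank F ↥(C ⊓ ⨅ j : Fin m, Submodule.comap
            (LinearMap.pi (fun i : Fin 7 =>
              LinearMap.comp (LinearMap.proj j : (Fin m → F) →ₗ[F] F)
                (LinearMap.proj i : (Fin 7 → Fin m → F) →ₗ[F] (Fin m → F)))) W)) ∧
        ∀ (K : Type) [Field K] [Algebra F K], ¬ ∃ (k : ℕ) (G : Matrix (Fin k) (Fin 7) K),
          ∀ V : Submodule F (Fin 7 → F),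
            m * Module.finrank K (Submodule.span K
              ((fun v : Fin 7 → F => Matrix.mulVec G (fun i => algebraMap F K (v i))) ''
                (V : Set (Fin 7 → F))))
            = Module.finrank F C - Module.finrank F ↥(C ⊓ ⨅ j : Fin m, Submodule.comap
              (LinearMap.pi (fun i : Fin 7 =>
                LinearMap.comp (LinearMap.proj j : (Fin m → F) →ₗ[F] F)
                  (LinearMap.proj i : (Fin 7 → Fin m → F) →ₗ[F] (Fin m → F))))
              (⨅ (v : Fin 7 → F) (_ : v ∈ V), LinearMap.ker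
                (∑ i : Fin 7, v i • (LinearMap.proj i : (Fin 7 → F) →ₗ[F] F)))) :=
  exists_code_aux (by rw [← hm]; exact Module.finrank_pos) hm (wEl ε) (zEl ε γ) z_mul_w
    (dich_quat hm hε hγ)

end Main

end Pool.Agent.Lib.MP_389e9c_co
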