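import Pool.Agent.Lib.MP_389e9c_co.Ring

set_option autoImplicit false

namespace Pool.Agent.Lib.MP_389e9c_co

open Matrix

section Quat

variable {F : Type*} [Field F] {L : Type*} [Field L] [Algebra F L]

/-- The element `(x + y w) + (x' + y' w) σ` of the matrix ring, where `w ^ 2 = w + ε`. -/
def el (ε x y x' y' : L) : Matrix (Fin 2) (Fin 2) L :=
  !![x + x', ε * y + x' - ε * y'; y + y', x + y - x']

/-- Elements of skew degree at most one. -/
def R1 (ε : F) (γ : L) (M : Matrix (Fin 2) (Fin 2) L) : Prop :=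
  ∃ x0 y0 x1 y1 : F, M = el (algebraMap F L ε) (algebraMap F L x0) (algebraMap F L y0)
    (γ * algebraMap F L x1) (γ * algebraMap F L y1)

/-- Elements of skew degree at most two. -/
def R2 (ε : F) (γ : L) (M : Matrix (Fin 2) (Fin 2) L) : Prop :=
  ∃ x0 y0 x1 y1 x2 y2 : F, M = el (algebraMap F L ε)
    (algebraMap F L x0 + γ ^ 2 * algebraMap F L x2) (algebraMap F L y0 + γ ^ 2 * algebraMap F L y2)
    (γ * algebraMap F L x1) (γ * algebraMap F L y1)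

/-- Elements of skew degree at most three. -/
def R3 (ε : F) (γ : L) (M : Matrix (Fin 2) (Fin 2) L) : Prop :=
  ∃ x0 y0 x1 y1 x2 y2 x3 y3 : F, M = el (algebraMap F L ε)
    (algebraMap F L x0 + γ ^ 2 * algebraMap F L x2) (algebraMap F L y0 + γ ^ 2 * algebraMap F L y2)
    (γ * algebraMap F L x1 + γ ^ 3 * algebraMap F L x3)
    (γ * algebraMap F L y1 + γ ^ 3 * algebraMap F L y3)

variable {ε : F} {γ : L}

lemma el_ext {e x y x' y' a b a' b' : L} (h1 : x = a) (h2 : y = b) (h3 : x' = a') (h4 : y' = b') :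
    el e x y x' y' = el e a b a' b' := by
  rw [h1, h2, h3, h4]

lemma el_mul (e x y x' y' a b a' b' : L) :
    el e x y x' y' * el e a b a' b' =
      el e (x * a + e * y * b + (x' * (a' + b') - e * y' * b'))
        (x * b + y * a + y * b + (y' * a' - x' * b'))
        (x * a' + e * y * b' + (x' * (a + b) - e * y' * b))
        (x * b' + y * a' + y * b' + (y' * a - x' * b)) := by
  ext i j
  fin_cases i <;> fin_cases j <;> simp [el, Matrix.mul_apply, Fin.sum_univ_two] <;> ring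

lemma R1.mul {a b : Matrix (Fin 2) (Fin 2) L} (ha : R1 ε γ a) (hb : R1 ε γ b) :
    R2 ε γ (a * b) := by
  obtain ⟨x0, y0, x1, y1, rfl⟩ := ha
  obtain ⟨u0, v0, u1, v1, rfl⟩ := hb
  refine ⟨x0 * u0 + ε * y0 * v0, x0 * v0 + y0 * u0 + y0 * v0,
    x0 * u1 + ε * y0 * v1 + (x1 * (u0 + v0) - ε * y1 * v0),
    x0 * v1 + y0 * u1 + y0 * v1 + (y1 * u0 - x1 * v0),
    x1 * (u1 + v1) - ε * y1 * v1, y1 * u1 - x1 * v1, ?_⟩
  rw [el_mul]
  apply el_ext <;> simp only [map_add, map_mul, map_sub] <;> ring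

lemma R2.mul_R1 {a b : Matrix (Fin 2) (Fin 2) L} (ha : R2 ε γ a) (hb : R1 ε γ b) :
    R3 ε γ (a * b) := by
  obtain ⟨x0, y0, x1, y1, x2, y2, rfl⟩ := ha
  obtain ⟨u0, v0, u1, v1, rfl⟩ := hb
  refine ⟨x0 * u0 + ε * y0 * v0, x0 * v0 + y0 * u0 + y0 * v0,
    x0 * u1 + ε * y0 * v1 + (x1 * (u0 + v0) - ε * y1 * v0),
    x0 * v1 + y0 * u1 + y0 * v1 + (y1 * u0 - x1 * v0),
    x1 * (u1 + v1) - ε * y1 * v1 + (x2 * u0 + ε * y2 * v0),
    y1 * u1 - x1 * v1 + (x2 * v0 + y2 * u0 + y2 * v0),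
    x2 * u1 + ε * y2 * v1, x2 * v1 + y2 * u1 + y2 * v1, ?_⟩
  rw [el_mul]
  apply el_ext <;> simp only [map_add, map_mul, map_sub] <;> ring

lemma R3.sub {a b : Matrix (Fin 2) (Fin 2) L} (ha : R3 ε γ a) (hb : R3 ε γ b) :
    R3 ε γ (a - b) := by
  obtain ⟨x0, y0, x1, y1, x2, y2, x3, y3, rfl⟩ := ha
  obtain ⟨u0, v0, u1, v1, u2, v2, u3, v3, rfl⟩ := hb
  refine ⟨x0 - u0, y0 - v0, x1 - u1, y1 - v1, x2 - u2, y2 - v2, x3 - u3, y3 - v3, ?_⟩
  ext i j
  fin_cases i <;> fin_cases j <;> simp [el] <;> ring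

lemma R1.adj {a : Matrix (Fin 2) (Fin 2) L} (ha : R1 ε γ a) : R1 ε γ a.adjugate := by
  obtain ⟨x0, y0, x1, y1, rfl⟩ := ha
  refine ⟨x0 + y0, - y0, - x1, - y1, ?_⟩
  rw [Matrix.adjugate_fin_two]
  ext i j
  fin_cases i <;> fin_cases j <;> simp [el] <;> ring

lemma R1.det_smul {a b : Matrix (Fin 2) (Fin 2) L} (ha : R1 ε γ a) (hb : R1 ε γ b) :
    R3 ε γ (a.det • b) := by
  obtain ⟨x0, y0, x1, y1, rfl⟩ := ha
  obtain ⟨u0, v0, u1, v1, rfl⟩ := hb
  refine ⟨(x0 ^ 2 + x0 * y0 - ε * y0 ^ 2) * u0, (x0 ^ 2 + x0 * y0 - ε * y0 ^ 2) * v0,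
    (x0 ^ 2 + x0 * y0 - ε * y0 ^ 2) * u1, (x0 ^ 2 + x0 * y0 - ε * y0 ^ 2) * v1,
    -(x1 ^ 2 + x1 * y1 - ε * y1 ^ 2) * u0, -(x1 ^ 2 + x1 * y1 - ε * y1 ^ 2) * v0,
    -(x1 ^ 2 + x1 * y1 - ε * y1 ^ 2) * u1, -(x1 ^ 2 + x1 * y1 - ε * y1 ^ 2) * v1, ?_⟩
  ext i j
  fin_cases i <;> fin_cases j <;> simp [el, Matrix.det_fin_two] <;> ring

lemma R1.R3 {a : Matrix (Fin 2) (Fin 2) L} (ha : R1 ε γ a) : R3 ε γ a := by
  obtain ⟨x0, y0, x1, y1, rfl⟩ := ha
  refine ⟨x0, y0, x1, y1, 0, 0, 0, 0, ?_⟩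
  apply el_ext <;> simp

/-- Nonzero elements of skew degree at most three are invertible. -/
lemma R3.zero_or_unit (hε : ∀ x y : F, x ^ 2 + x * y - ε * y ^ 2 = 0 → x = 0 ∧ y = 0)
    (hγ : ∀ c0 c1 c2 c3 : F, algebraMap F L c0 + γ ^ 2 * algebraMap F L c1 +
      γ ^ 4 * algebraMap F L c2 + γ ^ 6 * algebraMap F L c3 = 0 →
      c0 = 0 ∧ c1 = 0 ∧ c2 = 0 ∧ c3 = 0)
    {a : Matrix (Fin 2) (Fin 2) L} (ha : R3 ε γ a) : a = 0 ∨ IsUnit a := by
  by_cases hdet : a.det = 0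
  · left
    obtain ⟨x0, y0, x1, y1, x2, y2, x3, y3, rfl⟩ := ha
    have h := hγ (x0 ^ 2 + x0 * y0 - ε * y0 ^ 2)
      (2 * x0 * x2 + x0 * y2 + x2 * y0 - 2 * ε * y0 * y2 - (x1 ^ 2 + x1 * y1 - ε * y1 ^ 2))
      ((x2 ^ 2 + x2 * y2 - ε * y2 ^ 2) - (2 * x1 * x3 + x1 * y3 + x3 * y1 - 2 * ε * y1 * y3))
      (-(x3 ^ 2 + x3 * y3 - ε * y3 ^ 2)) (by
        rw [← hdet, el, Matrix.det_fin_two]
        simp only [map_add, map_mul, map_sub, map_pow, map_neg, map_ofNat, Matrix.cons_val',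
          Matrix.cons_val_zero, Matrix.cons_val_one, Matrix.of_apply, Matrix.cons_val_fin_one]
        ring)
    obtain ⟨h0, h1, h2, h3⟩ := h
    obtain ⟨hx0, hy0⟩ := hε x0 y0 h0
    obtain ⟨hx3, hy3⟩ := hε x3 y3 (by linear_combination -h3)
    obtain ⟨hx1, hy1⟩ := hε x1 y1 (by rw [hx0, hy0] at h1; linear_combination -h1)
    obtain ⟨hx2, hy2⟩ := hε x2 y2 (by rw [hx3, hy3] at h2; linear_combination h2)
    subst hx0 hy0 hx1 hy1 hx2 hy2 hx3 hy3
    ext i j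
    fin_cases i <;> fin_cases j <;> simp [el]
  · right
    rw [Matrix.isUnit_iff_isUnit_det]
    exact isUnit_iff_ne_zero.mpr hdet

/-- `w` -/
def wEl (ε : F) : Matrix (Fin 2) (Fin 2) L := el (algebraMap F L ε) 0 1 0 0

/-- `z` -/
def zEl (ε : F) (γ : L) : Matrix (Fin 2) (Fin 2) L := el (algebraMap F L ε) 0 0 γ 0

lemma z_mul_w : zEl ε γ * wEl ε = zEl ε γ - wEl ε * zEl ε γ := by
  ext i j
  fin_cases i <;> fin_cases j <;>
    simp [el, zEl, wEl, Matrix.mul_apply, Fin.sum_univ_two] <;>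
    (try simp only [Algebra.smul_def]) <;> ring

lemma alpha_eq (u : Fin 7 → F) : alphaMap (wEl ε) (zEl ε γ) u =
    el (algebraMap F L ε) (algebraMap F L (u 0)) (algebraMap F L (u 1))
      (γ * algebraMap F L (u 2)) (γ * algebraMap F L 0) := by
  rw [alphaMap_apply]
  ext i j
  fin_cases i <;> fin_cases j <;>
    simp [el, zEl, wEl] <;> (try simp only [Algebra.smul_def]) <;> ring

lemma beta_eq (u : Fin 7 → F) : betaMap (wEl ε) (zEl ε γ) u =
    el (algebraMap F L ε) (algebraMap F L (u 3)) (algebraMap F L (u 4))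
      (γ * algebraMap F L (u 5)) (γ * algebraMap F L (u 6)) := by
  rw [betaMap_apply]
  ext i j
  fin_cases i <;> fin_cases j <;>
    simp [el, zEl, wEl, Matrix.mul_apply, Fin.sum_univ_two] <;>
    (try simp only [Algebra.smul_def]) <;> ring

lemma dich_quat [FiniteDimensional F L] {m : ℕ} (hm : Module.finrank F (Fin 2 → L) = m)
    (hε : ∀ x y : F, x ^ 2 + x * y - ε * y ^ 2 = 0 → x = 0 ∧ y = 0)
    (hγ : ∀ c0 c1 c2 c3 : F, algebraMap F L c0 + γ ^ 2 * algebraMap F L c1 +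
      γ ^ 4 * algebraMap F L c2 + γ ^ 6 * algebraMap F L c3 = 0 →
      c0 = 0 ∧ c1 = 0 ∧ c2 = 0 ∧ c3 = 0) :
    Dich (phi (Fin 2 → L) (alphaMap (F := F) (wEl ε) (zEl ε γ)) (betaMap (wEl ε) (zEl ε γ))) m := by
  have hα1 : ∀ u : Fin 7 → F, R1 ε γ (alphaMap (wEl ε) (zEl ε γ) u) := by
    intro u
    rw [alpha_eq]
    exact ⟨_, _, _, _, rfl⟩
  have hβ1 : ∀ u : Fin 7 → F, R1 ε γ (betaMap (wEl ε) (zEl ε γ) u) := by
    intro u
    rw [beta_eq]
    exact ⟨_, _, _, _, rfl⟩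
  have hγ0 : γ ≠ 0 := by
    intro h
    have := hγ 0 1 0 0 (by rw [h]; simp)
    exact one_ne_zero this.2.1
  have inj : ∀ x0 y0 x1 y1 : F, el (algebraMap F L ε) (algebraMap F L x0) (algebraMap F L y0)
      (γ * algebraMap F L x1) (γ * algebraMap F L y1) = 0 → x0 = 0 ∧ y0 = 0 ∧ x1 = 0 ∧ y1 = 0 := by
    intro x0 y0 x1 y1 h
    have hd : (el (algebraMap F L ε) (algebraMap F L x0) (algebraMap F L y0)
      (γ * algebraMap F L x1) (γ * algebraMap F L y1)).det = 0 := by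
      rw [h, Matrix.det_zero]
    have h' := hγ (x0 ^ 2 + x0 * y0 - ε * y0 ^ 2)
      (- (x1 ^ 2 + x1 * y1 - ε * y1 ^ 2)) 0 0 (by
        rw [← hd, el, Matrix.det_fin_two]
        simp only [map_add, map_mul, map_sub, map_pow, map_neg, map_zero, Matrix.cons_val',
          Matrix.cons_val_zero, Matrix.cons_val_one, Matrix.of_apply, Matrix.cons_val_fin_one]
        ring)
    obtain ⟨g0, g1⟩ := hε x0 y0 h'.1
    obtain ⟨g2, g3⟩ := hε x1 y1 (by linear_combination -h'.2.1)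
    exact ⟨g0, g1, g2, g3⟩
  apply dich_of_units hm
  · intro u
    exact (hα1 u).R3.zero_or_unit hε hγ
  · intro u hu hu0
    rcases (hβ1 u).R3.zero_or_unit hε hγ with h | h
    · exfalso
      apply hu
      rw [alpha_eq] at hu0
      rw [beta_eq] at h
      obtain ⟨g0, g1, g2, -⟩ := inj _ _ _ _ hu0
      obtain ⟨g3, g4, g5, g6⟩ := inj _ _ _ _ h
      ext i
      fin_cases i <;> simp [g0, g1, g2, g3, g4, g5, g6]
    · exact h
  · intro u v w' hw'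
    set a := alphaMap (wEl ε) (zEl ε γ) u with ha
    set b := betaMap (wEl ε) (zEl ε γ) u with hb
    set c := alphaMap (wEl ε) (zEl ε γ) v with hc
    set d := betaMap (wEl ε) (zEl ε γ) v with hd
    have hdet : a.det ≠ 0 := by
      have h1 : IsUnit a := hw' ▸ w'.isUnit
      rw [Matrix.isUnit_iff_isUnit_det] at h1
      exact h1.ne_zero
    have hinv : a.det • (↑(w'⁻¹) : Matrix (Fin 2) (Fin 2) L) = a.adjugate := by
      have h1 : a * a.adjugate = a.det • (1 : Matrix (Fin 2) (Fin 2) L) := Matrix.mul_adjugate a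
      have h2 : (↑(w'⁻¹) : Matrix (Fin 2) (Fin 2) L) * (a * a.adjugate) = a.adjugate := by
        rw [← mul_assoc, ← hw', Units.inv_mul, one_mul]
      rw [h1, mul_smul_comm, mul_one] at h2
      exact h2
    have hM : R3 ε γ (a.det • d - c * a.adjugate * b) :=
      ((hα1 u).det_smul (hβ1 v)).sub (((hα1 v).mul (hα1 u).adj).mul_R1 (hβ1 u))
    have hX : a.det • (d - c * (↑(w'⁻¹) : Matrix (Fin 2) (Fin 2) L) * b) =
        a.det • d - c * a.adjugate * b := by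
      rw [smul_sub, ← hinv, mul_smul_comm, smul_mul_assoc]
    rcases hM.zero_or_unit hε hγ with h | h
    · left
      rw [h] at hX
      exact (smul_eq_zero.mp hX).resolve_left hdet
    · right
      rw [← hX] at h
      rw [Matrix.isUnit_iff_isUnit_det] at h ⊢
      rw [Matrix.det_smul] at h
      exact isUnit_of_mul_isUnit_right h

end Quat

end Pool.Agent.Lib.MP_389e9c_co
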