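import Pool.Agent.Lib.MP_389e9c_co.Code

set_option autoImplicit false

namespace Pool.Agent.Lib.MP_389e9c_co

section Rep

variable {F : Type*} [Field F] {K : Type*} [Field K] [Algebra F K]
  {S : Type*} [AddCommGroup S] [Module F S] {n m : ℕ}

/-- The `F`-linear map `v ↦ G v` for a matrix `G` over the extension field `K`. -/
noncomputable def gmap {k : ℕ} (G : Matrix (Fin k) (Fin n) K) :
    (Fin n → F) →ₗ[F] (Fin k → K) where
  toFun v := Matrix.mulVec G (fun i => algebraMap F K (v i))
  map_add' x y := by
    rw [← Matrix.mulVec_add]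
    congr 1
    ext i
    simp
  map_smul' c x := by
    simp only [RingHom.id_apply]
    ext j
    simp only [Matrix.mulVec, dotProduct, Pi.smul_apply, smul_eq_mul, map_mul, Algebra.smul_def,
      Finset.mul_sum]
    exact Finset.sum_congr rfl (fun i _ => by ring)

lemma span_image_span {k : ℕ} (g : (Fin n → F) →ₗ[F] (Fin k → K)) (s : Set (Fin n → F)) :
    Submodule.span K (g '' (Submodule.span F s : Set (Fin n → F))) = Submodule.span K (g '' s) := by
  apply le_antisymm
  · rw [Submodule.span_le]
    rintro _ ⟨x, hx, rfl⟩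
    have h1 : g x ∈ Submodule.map g (Submodule.span F s) := Submodule.mem_map_of_mem hx
    rw [Submodule.map_span] at h1
    have h2 : Submodule.span F (g '' s) ≤ (Submodule.span K (g '' s)).restrictScalars F := by
      rw [Submodule.span_le]
      exact Submodule.subset_span
    exact h2 h1
  · exact Submodule.span_mono (Set.image_mono Submodule.subset_span)

lemma iInf_span (φ : (Fin n → F) →ₗ[F] ((S × S) →ₗ[F] S)) (s : Set (Fin n → F)) :
    (⨅ (v : Fin n → F) (_ : v ∈ Submodule.span F s), LinearMap.ker (φ v))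
      = ⨅ (v : Fin n → F) (_ : v ∈ s), LinearMap.ker (φ v) := by
  apply le_antisymm
  · exact le_iInf₂ (fun v hv => iInf₂_le v (Submodule.subset_span hv))
  · refine le_iInf₂ (fun v hv => ?_)
    intro p hp
    simp only [Submodule.mem_iInf, LinearMap.mem_ker] at hp
    rw [LinearMap.mem_ker]
    induction hv using Submodule.span_induction with
    | mem x hx => exact hp x hx
    | zero => simp
    | add x y _ _ hx hy => rw [map_add, LinearMap.add_apply, hx, hy, add_zero]
    | smul a x _ hx => rw [map_smul, LinearMap.smul_apply, hx, smul_zero]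

/-- The rank condition satisfied by a representation, in terms of kernels. -/
def RepCond {k : ℕ} (φ : (Fin n → F) →ₗ[F] ((S × S) →ₗ[F] S)) (m : ℕ)
    (g : (Fin n → F) →ₗ[F] (Fin k → K)) : Prop :=
  ∀ V : Submodule F (Fin n → F),
    m * Module.finrank K (Submodule.span K (g '' (V : Set (Fin n → F))))
      = 2 * m - Module.finrank F ↥(⨅ (v : Fin n → F) (_ : v ∈ V), LinearMap.ker (φ v))

variable {k : ℕ} {φ : (Fin n → F) →ₗ[F] ((S × S) →ₗ[F] S)} {g : (Fin n → F) →ₗ[F] (Fin k → K)}

lemma RepCond.pair (h : RepCond φ m g) (u v : Fin n → F) :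
    m * Module.finrank K (Submodule.span K ({g u, g v} : Set (Fin k → K)))
      = 2 * m - Module.finrank F ↥(LinearMap.ker (φ u) ⊓ LinearMap.ker (φ v)) := by
  have h1 := h (Submodule.span F {u, v})
  rw [span_image_span, iInf_span, Set.image_pair, iInf_pair] at h1
  exact h1

lemma RepCond.ne_zero (hm : 0 < m) (hd : Dich φ m) (h : RepCond φ m g) (u : Fin n → F)
    (hu : u ≠ 0) : g u ≠ 0 := by
  intro h0
  have h1 := h.pair u u
  rw [inf_idem, hd.ker_dim u hu, h0] at h1
  have h2 : Submodule.span K ({0, 0} : Set (Fin k → K)) = ⊥ := by simp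
  rw [h2, finrank_bot] at h1
  omega

lemma RepCond.prop (hm : 0 < m) (hd : Dich φ m) (h : RepCond φ m g) (u v : Fin n → F)
    (hu : u ≠ 0) (huv : LinearMap.ker (φ u) ≤ LinearMap.ker (φ v)) : ∃ c : K, g v = c • g u := by
  have h1 := h.pair u v
  rw [inf_eq_left.mpr huv, hd.ker_dim u hu] at h1
  have h2 : Module.finrank K (Submodule.span K ({g u, g v} : Set (Fin k → K))) = 1 := by
    have : m * Module.finrank K (Submodule.span K ({g u, g v} : Set (Fin k → K))) = m * 1 := by
      omega
    exact Nat.eq_of_mul_eq_mul_left hm this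
  have h3 : Submodule.span K {g u} = Submodule.span K ({g u, g v} : Set (Fin k → K)) := by
    apply Submodule.eq_of_le_of_finrank_eq
    · exact Submodule.span_mono (by simp)
    · rw [h2, finrank_span_singleton (h.ne_zero hm hd u hu)]
  have h4 : g v ∈ Submodule.span K {g u} := by
    rw [h3]
    exact Submodule.subset_span (by simp)
  obtain ⟨c, hc⟩ := Submodule.mem_span_singleton.mp h4
  exact ⟨c, hc.symm⟩

lemma RepCond.indep (hm : 0 < m) (h : RepCond φ m g) (u v : Fin n → F)
    (huv : LinearMap.ker (φ u) ⊓ LinearMap.ker (φ v) = ⊥) :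
    LinearIndependent K ![g u, g v] := by
  have h1 := h.pair u v
  rw [huv, finrank_bot, Nat.sub_zero, mul_comm] at h1
  have h2 : Module.finrank K (Submodule.span K ({g u, g v} : Set (Fin k → K))) = 2 :=
    Nat.eq_of_mul_eq_mul_right hm h1
  rw [linearIndependent_iff_card_eq_finrank_span]
  rw [Set.finrank, Matrix.range_cons, Matrix.range_cons, Matrix.range_empty, Set.union_empty,
    Set.singleton_union, h2]
  simp

end Rep

end Pool.Agent.Lib.MP_389e9c_co
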