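import Pool.Agent.Lib.MP_389e9c_co.Rep

set_option autoImplicit false

namespace Pool.Agent.Lib.MP_389e9c_co

section Ring

variable {F : Type*} [Field F] {A : Type*} [Ring A] [Algebra F A]
  {S : Type*} [AddCommGroup S] [Module F S] [Module A S] [IsScalarTower F A S] {n m : ℕ}

/-- The family `u ↦ ((s, t) ↦ α(u) s + β(u) t)`. -/
noncomputable def phi (S : Type*) [AddCommGroup S] [Module F S] [Module A S] [IsScalarTower F A S]
    (α β : (Fin n → F) →ₗ[F] A) : (Fin n → F) →ₗ[F] ((S × S) →ₗ[F] S) :=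
  (LinearMap.coprodEquiv (R := F) F).toLinearMap ∘ₗ
    (((Algebra.lsmul F F S).toLinearMap ∘ₗ α).prod ((Algebra.lsmul F F S).toLinearMap ∘ₗ β))

lemma phi_apply (α β : (Fin n → F) →ₗ[F] A) (u : Fin n → F) (s t : S) :
    phi S α β u (s, t) = α u • s + β u • t := by
  simp [phi]

lemma mem_ker_phi (α β : (Fin n → F) →ₗ[F] A) (u : Fin n → F) (s t : S) :
    (s, t) ∈ LinearMap.ker (phi S α β u) ↔ α u • s + β u • t = 0 := by
  rw [LinearMap.mem_ker, phi_apply]

lemma ker_phi_le_of_mul (α β : (Fin n → F) →ₗ[F] A) (u v : Fin n → F) (r : A)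
    (h1 : α v = r * α u) (h2 : β v = r * β u) :
    LinearMap.ker (phi S α β u) ≤ LinearMap.ker (phi S α β v) := by
  rintro ⟨s, t⟩ h
  rw [mem_ker_phi] at h ⊢
  rw [h1, h2, mul_smul, mul_smul, ← smul_add, h, smul_zero]

lemma unit_smul_eq_zero {a : A} (ha : IsUnit a) (s : S) (h : a • s = 0) : s = 0 := by
  obtain ⟨u, rfl⟩ := ha
  have h2 : ((↑(u⁻¹) : A) * (u : A)) • s = 0 := by rw [mul_smul, h, smul_zero]
  simpa using h2

lemma finrank_ker_phi [FiniteDimensional F S] (hS : Module.finrank F S = m)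
    (α β : (Fin n → F) →ₗ[F] A) (u : Fin n → F) (h : IsUnit (α u) ∨ IsUnit (β u)) :
    Module.finrank F (LinearMap.ker (phi S α β u)) = m := by
  have hsurj : LinearMap.range (phi S α β u) = ⊤ := by
    rw [LinearMap.range_eq_top]
    intro y
    rcases h with ⟨w, hw⟩ | ⟨w, hw⟩
    · refine ⟨((↑(w⁻¹) : A) • y, 0), ?_⟩
      rw [phi_apply, ← hw, smul_zero, add_zero, ← mul_smul, Units.mul_inv, one_smul]
    · refine ⟨(0, (↑(w⁻¹) : A) • y), ?_⟩
      rw [phi_apply, ← hw, smul_zero, zero_add, ← mul_smul, Units.mul_inv, one_smul]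
  have h1 := LinearMap.finrank_range_add_finrank_ker (phi S α β u)
  rw [hsurj, finrank_top, Module.finrank_prod, hS] at h1
  omega

/-- The ring-theoretic criterion for the dichotomy. -/
lemma dich_of_units [FiniteDimensional F S] (hS : Module.finrank F S = m)
    (α β : (Fin n → F) →ₗ[F] A)
    (hα : ∀ u, α u = 0 ∨ IsUnit (α u))
    (hβ : ∀ u, u ≠ 0 → α u = 0 → IsUnit (β u))
    (hM : ∀ u v, ∀ w : Aˣ, (w : A) = α u → β v - α v * (↑(w⁻¹) : A) * β u = 0 ∨
      IsUnit (β v - α v * (↑(w⁻¹) : A) * β u)) :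
    Dich (phi S α β) m := by
  constructor
  · intro u hu
    apply finrank_ker_phi hS
    rcases hα u with h | h
    · exact Or.inr (hβ u hu h)
    · exact Or.inl h
  · intro u v hu
    rcases hα u with h | h
    · have hb := hβ u hu h
      rcases hα v with h' | h'
      · left
        rintro ⟨s, t⟩ hst
        rw [mem_ker_phi, h, zero_smul, zero_add] at hst
        have ht := unit_smul_eq_zero hb t hst
        rw [mem_ker_phi, h', ht, zero_smul, smul_zero, add_zero]
      · right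
        rw [eq_bot_iff]
        rintro ⟨s, t⟩ ⟨h1, h2⟩
        simp only [SetLike.mem_coe] at h1 h2
        rw [mem_ker_phi] at h1 h2
        rw [h, zero_smul, zero_add] at h1
        have ht := unit_smul_eq_zero hb t h1
        rw [ht, smul_zero, add_zero] at h2
        have hs := unit_smul_eq_zero h' s h2
        simp [hs, ht]
    · obtain ⟨w, hw⟩ := h
      have key : ∀ s t : S, α u • s + β u • t = 0 →
          α v • s + β v • t = (β v - α v * (↑(w⁻¹) : A) * β u) • t := by
        intro s t hst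
        have hs : s = - ((↑(w⁻¹) : A) • β u • t) := by
          have h3 : (↑(w⁻¹) : A) • (α u • s + β u • t) = 0 := by rw [hst, smul_zero]
          rw [smul_add, ← mul_smul, ← hw, Units.inv_mul, one_smul] at h3
          exact eq_neg_of_add_eq_zero_left h3
        rw [hs, sub_smul, smul_neg, mul_smul, mul_smul]
        abel
      rcases hM u v w hw with h0 | h0
      · left
        rintro ⟨s, t⟩ hst
        rw [mem_ker_phi] at hst ⊢
        rw [key s t hst, h0, zero_smul]
      · right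
        rw [eq_bot_iff]
        rintro ⟨s, t⟩ ⟨h1, h2⟩
        simp only [SetLike.mem_coe] at h1 h2
        rw [mem_ker_phi] at h1 h2
        rw [key s t h1] at h2
        have ht := unit_smul_eq_zero h0 t h2
        rw [ht, smul_zero, add_zero, ← hw] at h1
        have hs := unit_smul_eq_zero w.isUnit s h1
        simp [hs, ht]

/-- The first coordinate map: `u ↦ u₀ + u₁ w + u₂ z`. -/
noncomputable def alphaMap (w z : A) : (Fin 7 → F) →ₗ[F] A :=
  (LinearMap.proj 0).smulRight 1 + (LinearMap.proj 1).smulRight w +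
    (LinearMap.proj 2).smulRight z

/-- The second coordinate map: `u ↦ u₃ + u₄ w + u₅ z + u₆ w z`. -/
noncomputable def betaMap (w z : A) : (Fin 7 → F) →ₗ[F] A :=
  (LinearMap.proj 3).smulRight 1 + (LinearMap.proj 4).smulRight w +
    (LinearMap.proj 5).smulRight z + (LinearMap.proj 6).smulRight (w * z)

lemma alphaMap_apply (w z : A) (u : Fin 7 → F) :
    alphaMap w z u = u 0 • 1 + u 1 • w + u 2 • z := by
  simp [alphaMap]

lemma betaMap_apply (w z : A) (u : Fin 7 → F) :
    betaMap w z u = u 3 • 1 + u 4 • w + u 5 • z + u 6 • (w * z) := by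
  simp [betaMap]

/-- No representation over a commutative field extension. -/
lemma no_rep {K : Type*} [Field K] [Algebra F K] [FiniteDimensional F S] (hm : 0 < m)
    (w z : A) (hzw : z * w = z - w * z)
    (hd : Dich (phi S (alphaMap (F := F) w z) (betaMap w z)) m)
    {k : ℕ} (g : (Fin 7 → F) →ₗ[F] (Fin k → K))
    (h : RepCond (phi S (alphaMap (F := F) w z) (betaMap w z)) m g) : False := by
  set ε : Fin 7 → (Fin 7 → F) := fun i => Pi.single i 1 with hε
  have hne : ∀ i, ε i ≠ 0 := by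
    intro i hi
    have := congrFun hi i
    simp [hε] at this
  have hindep : LinearIndependent K ![g (ε 0), g (ε 3)] := by
    apply h.indep hm
    rw [eq_bot_iff]
    rintro ⟨s, t⟩ ⟨h1, h2⟩
    simp only [SetLike.mem_coe] at h1 h2
    rw [mem_ker_phi, alphaMap_apply, betaMap_apply] at h1 h2
    simp [hε] at h1 h2
    simp [h1, h2]
  have hind2 : ∀ a b : K, a • g (ε 0) + b • g (ε 3) = 0 → a = 0 ∧ b = 0 := by
    rw [LinearIndependent.pair_iff] at hindep
    exact hindep
  obtain ⟨a, ha⟩ := h.prop hm hd (ε 0) (ε 1) (hne 0) (ker_phi_le_of_mul _ _ _ _ w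
    (by simp [alphaMap_apply, hε]) (by simp [betaMap_apply, hε]))
  obtain ⟨b, hb⟩ := h.prop hm hd (ε 0) (ε 2) (hne 0) (ker_phi_le_of_mul _ _ _ _ z
    (by simp [alphaMap_apply, hε]) (by simp [betaMap_apply, hε]))
  obtain ⟨a', ha'⟩ := h.prop hm hd (ε 3) (ε 4) (hne 3) (ker_phi_le_of_mul _ _ _ _ w
    (by simp [alphaMap_apply, hε]) (by simp [betaMap_apply, hε]))
  obtain ⟨b', hb'⟩ := h.prop hm hd (ε 3) (ε 5) (hne 3) (ker_phi_le_of_mul _ _ _ _ z
    (by simp [alphaMap_apply, hε]) (by simp [betaMap_apply, hε]))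
  obtain ⟨d, hdd⟩ := h.prop hm hd (ε 3) (ε 6) (hne 3) (ker_phi_le_of_mul _ _ _ _ (w * z)
    (by simp [alphaMap_apply, hε]) (by simp [betaMap_apply, hε]))
  have hne2 : ∀ i j, i ≠ j → ε i + ε j ≠ 0 := by
    intro i j hij hi
    have := congrFun hi i
    simp [hε, Pi.single_apply, hij] at this
  obtain ⟨c1, hc1⟩ := h.prop hm hd (ε 0 + ε 3) (ε 1 + ε 4) (hne2 0 3 (by decide))
    (ker_phi_le_of_mul _ _ _ _ w
    (by simp [alphaMap_apply, hε]) (by simp [betaMap_apply, hε]))
  obtain ⟨c2, hc2⟩ := h.prop hm hd (ε 0 + ε 3) (ε 2 + ε 5) (hne2 0 3 (by decide))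
    (ker_phi_le_of_mul _ _ _ _ z
    (by simp [alphaMap_apply, hε]) (by simp [betaMap_apply, hε]))
  obtain ⟨c3, hc3⟩ := h.prop hm hd (ε 0 + ε 5) (ε 1 + ε 6) (hne2 0 5 (by decide))
    (ker_phi_le_of_mul _ _ _ _ w
    (by simp [alphaMap_apply, hε]) (by simp [betaMap_apply, hε]))
  obtain ⟨c4, hc4⟩ := h.prop hm hd (ε 0 + ε 4) (ε 2 + ε 5 - ε 6) (hne2 0 4 (by decide))
    (ker_phi_le_of_mul _ _ _ _ z
    (by simp [alphaMap_apply, hε]) (by simp [betaMap_apply, hε, hzw, sub_eq_add_neg]))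
  rw [map_add, map_add, ha, ha'] at hc1
  rw [map_add, map_add, hb, hb'] at hc2
  rw [map_add, map_add, ha, hdd, hb'] at hc3
  rw [map_sub, map_add, map_add, hb, hb', hdd, ha'] at hc4
  have e1 := hind2 (a - c1) (a' - c1) (by
    have : a • g (ε 0) + a' • g (ε 3) - c1 • (g (ε 0) + g (ε 3)) = 0 := sub_eq_zero.mpr hc1
    rw [← this]; module)
  have e2 := hind2 (b - c2) (b' - c2) (by
    have : b • g (ε 0) + b' • g (ε 3) - c2 • (g (ε 0) + g (ε 3)) = 0 := sub_eq_zero.mpr hc2
    rw [← this]; module)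
  have e3 := hind2 (a - c3) (d - c3 * b') (by
    have : a • g (ε 0) + d • g (ε 3) - c3 • (g (ε 0) + b' • g (ε 3)) = 0 := sub_eq_zero.mpr hc3
    rw [← this]; module)
  have e4 := hind2 (b - c4) (b' - d - c4 * a') (by
    have : b • g (ε 0) + b' • g (ε 3) - d • g (ε 3) - c4 • (g (ε 0) + a' • g (ε 3)) = 0 :=
      sub_eq_zero.mpr hc4
    rw [← this]; module)
  obtain ⟨f1, f1'⟩ := e1
  obtain ⟨f2, f2'⟩ := e2
  obtain ⟨f3, f3'⟩ := e3
  obtain ⟨f4, f4'⟩ := e4
  have haa : a' = a := by linear_combination f1' - f1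
  have hbb : b' = b := by linear_combination f2' - f2
  have hdab : d = a * b := by linear_combination f3' - f3 * b' + a * hbb
  have hfin : b * (1 - 2 * a) = 0 := by
    linear_combination f4' - f4 * a' + b * haa - hbb + hdab
  have hb0 : b ≠ 0 := by
    intro h0
    rw [h0, zero_smul] at hb
    exact h.ne_zero hm hd (ε 2) (hne 2) hb
  have h2a : 1 - 2 * a = 0 := (mul_eq_zero.mp hfin).resolve_left hb0
  have hne3 : ε 3 - (2 : F) • ε 4 ≠ 0 := by
    intro hi
    have := congrFun hi 3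
    simp [hε, Pi.single_apply] at this
  apply h.ne_zero hm hd _ hne3
  rw [map_sub, map_smul, ha', haa]
  have : g (ε 3) - (2 : F) • a • g (ε 3) = (1 - 2 * a) • g (ε 3) := by
    rw [sub_smul, one_smul, mul_smul]
    congr 1
    rw [← algebraMap_smul K (2 : F), map_ofNat]
  rw [this, h2a, zero_smul]

end Ring

end Pool.Agent.Lib.MP_389e9c_co
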